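import Mathlib
import Pool.Agent.SCI.Defs
import Pool.Agent.SCI.Close
import Pool.Agent.NTI.DNL

/-!
Let K be the Sierpinski carpet with its self-similar measure m and let ρ(s), s > 1, be the constants of the
Sobolev spaces F_s. For pairs of exponents p < q that are arbitrarily close to each other both alternatives of the
question on F_p ∩ F_q occur: there are s₀ in [26/25, 2] and c > 2 such that for every ε > 0 there is a nonempty open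
set V of pairs (p,q) with s₀ - ε < p < q < s₀ + ε for which all elements of F_p ∩ F_q are m-a.e. constant, and the set
of the pairs (p,q) with c - ε < p < c < q < c + ε for which F_p ∩ F_q contains a function which is not m-a.e. constant
is not a Lebesgue null set of the plane.
-/

set_option autoImplicit false

namespace Pool.Agent.Results.MP_f5a4a4_an.ClosePairs

open MeasureTheory Pool.Agent.SCI

theorem result (K : Set (ℝ × ℝ)) (m : Measure (ℝ × ℝ)) (hK : IsCarpet K) (hm : IsCarpetMeasure K m)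
    (ρ : ℝ → ℝ) (hρ : ∀ s : ℝ, 1 < s → IsRho K m s (ρ s)) :
    ∃ s₀ c : ℝ, 26 / 25 ≤ s₀ ∧ s₀ ≤ 2 ∧ 2 < c ∧ ∀ ε : ℝ, 0 < ε →
      (∃ V : Set (ℝ × ℝ), IsOpen V ∧ V.Nonempty ∧ ∀ p q : ℝ, (p, q) ∈ V → 1 < p ∧ s₀ - ε < p ∧ p < q ∧ q < s₀ + ε ∧
        ∀ f : ℝ × ℝ → ℝ, Mem K m p (ρ p) f → Mem K m q (ρ q) f → ∃ c : ℝ, f =ᵐ[m] fun _ => c) ∧
      volume {z : ℝ × ℝ | 2 < z.1 ∧ c - ε < z.1 ∧ z.1 < c ∧ c < z.2 ∧ z.2 < c + ε ∧
        ∃ f : ℝ × ℝ → ℝ, Mem K m z.1 (ρ z.1) f ∧ Mem K m z.2 (ρ z.2) f ∧ ¬ ∃ c : ℝ, f =ᵐ[m] fun _ => c} ≠ 0 := by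
  obtain ⟨s₀, h1, h2, h3⟩ := close hK hm ρ hρ
  obtain ⟨c, hc, h4⟩ := Pool.Agent.NTI.fin_close hK hm hρ
  refine ⟨s₀, c, h1, h2, hc, fun ε hε => ⟨?_, h4 ε hε⟩⟩
  obtain ⟨V, hV1, hV2, hV3⟩ := h3 ε hε
  refine ⟨V, hV1, hV2, fun p q hpq => ?_⟩
  obtain ⟨a1, a2, a3, a4, a5⟩ := hV3 p q hpq
  exact ⟨a1, a2, a3, a4, a5⟩

end Pool.Agent.Results.MP_f5a4a4_an.ClosePairs
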