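import Mathlib
import Pool.Agent.SCI.Defs
import Pool.Agent.NTI.DNL

/-!
Let K be the Sierpinski carpet with its self-similar measure m and let ρ(s), s > 1, be the constants of the
Sobolev spaces F_s. For 1 < p < q let NT p q say that F_p ∩ F_q contains a function which is not m-a.e. constant, and
let DenseIn p q t say that F_p ∩ F_q is dense in F_t (t = p or t = q), uniformly and in the energy of F_t.
(1) ρ(p) > 1 for all p ≥ 2.
(2) If NT p q then log ρ lies above its chord over [p,q].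
(3) If ρ(p) > 1, log ρ lies strictly above its chord over (p,q) and crosses the line of the chord transversally at
p (seen from the left) and at q (seen from the right) then NT p q, and F_p ∩ F_q is dense in F_p and in F_q.
(4) For every slope b and almost every intercept a: for all p < q with ρ(p) > 1 such that the line a + b s is the chord
of log ρ over [p,q]: if log ρ lies above this line on [p,q] then NT p q and F_p ∩ F_q is dense in F_p and in F_q;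
otherwise F_p ∩ F_q consists of constants only.
(5) The first alternative holds for a set of pairs with 2 < p < 4 < q which is not a Lebesgue null set of the plane.
-/

set_option autoImplicit false

namespace Pool.Agent.Results.MP_f5a4a4_an.CommonElements

open MeasureTheory Pool.Agent.SCI

/-- F_p ∩ F_q contains a function which is not m-a.e. constant -/
def NT (K : Set (ℝ × ℝ)) (m : Measure (ℝ × ℝ)) (ρ : ℝ → ℝ) (p q : ℝ) : Prop :=
  ∃ f : ℝ × ℝ → ℝ, Mem K m p (ρ p) f ∧ Mem K m q (ρ q) f ∧ ¬ ∃ c : ℝ, f =ᵐ[m] fun _ => c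

/-- F_p ∩ F_q is dense in F_t, for the uniform norm (almost everywhere) and the energy -/
def DenseIn (K : Set (ℝ × ℝ)) (m : Measure (ℝ × ℝ)) (ρ : ℝ → ℝ) (p q t : ℝ) : Prop :=
  ∀ f : ℝ × ℝ → ℝ, Mem K m t (ρ t) f → ∀ ε : ℝ, 0 < ε →
    ∃ g : ℝ × ℝ → ℝ, Mem K m p (ρ p) g ∧ Mem K m q (ρ q) g ∧ (∀ᵐ z ∂m, |f z - g z| ≤ ε) ∧
      ∀ n : ℕ, ρ t ^ n * energy K t n (Mn K m n (fun z => f z - g z)) ≤ ε

theorem result (K : Set (ℝ × ℝ)) (m : Measure (ℝ × ℝ)) (hK : IsCarpet K) (hm : IsCarpetMeasure K m)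
    (ρ : ℝ → ℝ) (hρ : ∀ s : ℝ, 1 < s → IsRho K m s (ρ s)) :
    (∀ p : ℝ, 2 ≤ p → 1 < ρ p) ∧
    (∀ p q : ℝ, 1 < p → p < q → NT K m ρ p q → ∀ s : ℝ, p ≤ s → s ≤ q →
      (q - s) * Real.log (ρ p) + (s - p) * Real.log (ρ q) ≤ (q - p) * Real.log (ρ s)) ∧
    (∀ a b p q : ℝ, 1 < p → p < q → 1 < ρ p → Real.log (ρ p) = a + b * p → Real.log (ρ q) = a + b * q →
      (∀ s : ℝ, p < s → s < q → a + b * s < Real.log (ρ s)) →
      (∃ γ : ℝ, b < γ ∧ ∃ δ : ℝ, 0 < δ ∧ ∀ s : ℝ, p - δ < s → s < p →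
        γ * (p - s) ≤ Real.log (ρ p) - Real.log (ρ s)) →
      (∃ γ : ℝ, γ < b ∧ ∃ δ : ℝ, 0 < δ ∧ ∀ s : ℝ, q < s → s < q + δ →
        Real.log (ρ s) - Real.log (ρ q) ≤ γ * (s - q)) →
      NT K m ρ p q ∧ DenseIn K m ρ p q p ∧ DenseIn K m ρ p q q) ∧
    (∀ b : ℝ, ∀ᵐ a : ℝ, ∀ p q : ℝ, 1 < p → p < q → 1 < ρ p →
      Real.log (ρ p) = a + b * p → Real.log (ρ q) = a + b * q →
      ((∀ s : ℝ, p ≤ s → s ≤ q → a + b * s ≤ Real.log (ρ s)) →
        NT K m ρ p q ∧ DenseIn K m ρ p q p ∧ DenseIn K m ρ p q q) ∧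
      (¬ (∀ s : ℝ, p ≤ s → s ≤ q → a + b * s ≤ Real.log (ρ s)) →
        ∀ f : ℝ × ℝ → ℝ, Mem K m p (ρ p) f → Mem K m q (ρ q) f → ∃ c : ℝ, f =ᵐ[m] fun _ => c)) ∧
    volume {z : ℝ × ℝ | 2 < z.1 ∧ z.1 < 4 ∧ 4 < z.2 ∧
      NT K m ρ z.1 z.2 ∧ DenseIn K m ρ z.1 z.2 z.1 ∧ DenseIn K m ρ z.1 z.2 z.2} ≠ 0 :=
  ⟨fun _ hp => Pool.Agent.NTI.rho_two hK hm hρ hp,
    fun _ _ hp hpq hN _ h1 h2 => Pool.Agent.NTI.fin_nec hK hm hρ hp hpq hN h1 h2,
    fun _ _ _ _ hp hpq hr ha hb hc hl hR => Pool.Agent.NTI.dnl_suff hK hm hρ hp hpq hr ha hb hc hl hR,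
    fun b => Pool.Agent.NTI.dnl_line hK hm hρ b,
    Pool.Agent.NTI.dnl_ex hK hm hρ⟩

end Pool.Agent.Results.MP_f5a4a4_an.CommonElements
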