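import Mathlib
import Pool.Agent.SCI.Defs
import Pool.Agent.NIF.FIN

/-!
Let K be the Sierpinski carpet with its self-similar measure m and let ρ(s), s > 1, be the constants of the
Sobolev spaces F_s. For all exponents p, q > 1 with p ≠ q there is an element of F_p that is not in F_q.
So neither of the spaces F_p, F_q is contained in the other.
-/

set_option autoImplicit false

namespace Pool.Agent.Results.MP_f5a4a4_an.NoInclusion

open MeasureTheory Pool.Agent.SCI

theorem result (K : Set (ℝ × ℝ)) (m : Measure (ℝ × ℝ)) (hK : IsCarpet K) (hm : IsCarpetMeasure K m)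
    (p q ρp ρq : ℝ) (hp : 1 < p) (hq : 1 < q) (hpq : p ≠ q)
    (h1 : IsRho K m p ρp) (h2 : IsRho K m q ρq) :
    ∃ f : ℝ × ℝ → ℝ, Mem K m p ρp f ∧ ¬ Mem K m q ρq f :=
  Pool.Agent.NIF.no_inclusion hK hm hp hq hpq h1 h2

end Pool.Agent.Results.MP_f5a4a4_an.NoInclusion
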