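import Mathlib
import Pool.Agent.SCI.Defs
import Pool.Agent.SCI.FIN

/-!
Let K be the Sierpinski carpet with its self-similar measure m, 1 < p < 4/3 < q, and let ρp = ρ(p), ρq = ρ(q).
If (531/2000)^((q-p)/3) < slab(p)^(q-4/3) slab(q)^(4/3-p), where slab(s) = (2·3^(-1/(s-1)) + 2^(-1/(s-1)))^(s-1),
or if p ≤ 26/25 and q ≥ 2, or if p ≤ 11/10 and q ≥ 9, then every element of F_p ∩ F_q is m-a.e. constant.
-/

set_option autoImplicit false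

namespace Pool.Agent.Results.MP_f5a4a4_an.TrivialIntersection

open MeasureTheory Pool.Agent.SCI

theorem result (K : Set (ℝ × ℝ)) (m : Measure (ℝ × ℝ)) (hK : IsCarpet K) (hm : IsCarpetMeasure K m)
    (p q ρp ρq : ℝ) (hp : 1 < p) (hp1 : p < 4 / 3) (hq : 4 / 3 < q)
    (h1 : IsRho K m p ρp) (h2 : IsRho K m q ρq)
    (hcond : (531 / 2000 : ℝ) ^ ((q - p) / 3) < slab p ^ (q - 4 / 3) * slab q ^ (4 / 3 - p) ∨
      (p ≤ 26 / 25 ∧ 2 ≤ q) ∨ (p ≤ 11 / 10 ∧ 9 ≤ q)) :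
    ∀ f : ℝ × ℝ → ℝ, Mem K m p ρp f → Mem K m q ρq f → ∃ c : ℝ, f =ᵐ[m] fun _ => c :=
  fun f hf1 hf2 => final hK hm p q ρp ρq hp hp1 hq h1 h2 hcond f hf1 hf2

end Pool.Agent.Results.MP_f5a4a4_an.TrivialIntersection
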